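import Pool.Agent.N444.Phy.Final

/-!
# Non-trivial common partition counts of two trees need not be unimodal

`T` is the caterpillar with leaf order `0, 1, ..., 441`.  The leaves are of four kinds: the last
two, the leaves `i < 440` with `i % 11` in `{1, 5, 9}` (split into `i < 220` and `i >= 220`), and
the others.  `F` is the caterpillar whose leaf order is: first those special leaves `i >= 220`,
then the ordinary leaves, then the special leaves `i < 220`, then the last two, each group in its
natural order.  Then `a_258 < 2 ^ 431`, while `a_222 > 2 ^ 435` and `a_299 > 2 ^ 437` for the
non-trivial common partitions.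
-/

set_option autoImplicit false

namespace Pool.Agent.Results.MP_8b9f13_co.NotUnimodal

open Pool.Agent.R935.Phylo Pool.Agent.N444.Phy

/-- Unimodality of the non-trivial common partition counts fails for some pair of trees with
442 leaves. -/
theorem result : ∃ T F : PhyloTree 442, ¬ Unimodal (commonNT T F) 442 :=
  ⟨TT, FF, NT_not⟩

end Pool.Agent.Results.MP_8b9f13_co.NotUnimodal
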